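import Pool.Agent.H16.BS2.General

set_option autoImplicit false

namespace Pool.Agent.Results.MP_a7e07e_co.BlockSizeTwo

/-- If `k = 2` or `r = 2` then every connected non-binary equireplicate design with `k ≤ v` is
strictly beaten, in efficiency factor, by a connected binary design with the same parameters. -/
theorem result :
    ∀ (v b k r : ℕ) (N : Matrix (Fin v) (Fin b) ℕ),
    k ≤ v → (k = 2 ∨ r = 2) →
    (∀ j, ∑ i, N i j = k) → (∀ i, ∑ j, N i j = r) →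
    (∃ i j, 2 ≤ N i j) →
    ((r : ℝ) • (1 : Matrix (Fin v) (Fin v) ℝ)
      - (1 / (k : ℝ)) • (N.map (Nat.cast : ℕ → ℝ) * (N.map (Nat.cast : ℕ → ℝ)).transpose)
      + (1 / (v : ℝ)) • Matrix.of (fun _ _ => (1 : ℝ))).det ≠ 0 →
    ∃ M : Matrix (Fin v) (Fin b) ℕ,
      (∀ j, ∑ i, M i j = k) ∧ (∀ i, ∑ j, M i j = r) ∧ (∀ i j, M i j ≤ 1) ∧
      ((r : ℝ) • (1 : Matrix (Fin v) (Fin v) ℝ)
        - (1 / (k : ℝ)) • (M.map (Nat.cast : ℕ → ℝ) * (M.map (Nat.cast : ℕ → ℝ)).transpose)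
        + (1 / (v : ℝ)) • Matrix.of (fun _ _ => (1 : ℝ))).det ≠ 0 ∧
      Matrix.trace ((r : ℝ) • (1 : Matrix (Fin v) (Fin v) ℝ)
        - (1 / (k : ℝ)) • (M.map (Nat.cast : ℕ → ℝ) * (M.map (Nat.cast : ℕ → ℝ)).transpose)
        + (1 / (v : ℝ)) • Matrix.of (fun _ _ => (1 : ℝ)))⁻¹
      < Matrix.trace ((r : ℝ) • (1 : Matrix (Fin v) (Fin v) ℝ)
        - (1 / (k : ℝ)) • (N.map (Nat.cast : ℕ → ℝ) * (N.map (Nat.cast : ℕ → ℝ)).transpose)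
        + (1 / (v : ℝ)) • Matrix.of (fun _ _ => (1 : ℝ)))⁻¹ := by
  intro v b k r N hkv h2 hcol hrow hnb hd
  have e : ∀ M : Matrix (Fin v) (Fin b) ℕ, Pool.Agent.H856R2.MM M k r
      = (r : ℝ) • (1 : Matrix (Fin v) (Fin v) ℝ)
      - (1 / (k : ℝ)) • (M.map (Nat.cast : ℕ → ℝ) * (M.map (Nat.cast : ℕ → ℝ)).transpose)
      + (1 / (v : ℝ)) • Matrix.of (fun _ _ => (1 : ℝ)) := by
    intro M
    unfold Pool.Agent.H856R2.MM
    rw [Fintype.card_fin]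
  obtain ⟨M, hM, hbin, hdM, htr⟩ := Pool.Agent.H16.BS2.main_general2 N k r ⟨hcol, hrow⟩
    (by rw [Fintype.card_fin]; exact hkv) h2 (by rw [e]; exact hd) hnb
  rw [e] at hdM
  rw [e, e] at htr
  exact ⟨M, hM.1, hM.2, hbin, hdM, htr⟩

end Pool.Agent.Results.MP_a7e07e_co.BlockSizeTwo
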